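import Pool.Agent.H600Z.IdC.SrMain

/-! Randomized binary consensus from single-reader single-writer registers needs order `n log n`
expected total work against an oblivious scheduler. -/

open scoped ENNReal
open MeasureTheory

namespace Pool.Agent.Results.MP_217fdb_lc.ANLogN

open Pool.Agent.H600Z.IdC

/-- If `n ≥ 2 (t + 1) 4 ^ t`, then for every randomized binary consensus algorithm for `n`
processors with single-reader single-writer registers and independent private random tapes there
are inputs and a schedule fixed in advance with expected total work at least `n t / 2`. -/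
theorem result (t n : ℕ) (hn : 2 * (t + 1) * 4 ^ t ≤ n) (R V Ω : Type) [MeasurableSpace Ω]
    (μ : Fin n → Measure Ω) [∀ q, IsProbabilityMeasure (μ q)] (alg : Alg n R V Bool Ω)
    (wr rd : R → Fin n) (hsr : alg.SingleReaderWriter wr rd) (hs : alg.SolvesConsensus) :
    ∃ (b : Fin n → Bool) (σ : ℕ → Fin n),
      (n * t : ℝ≥0∞) / 2 ≤ ∫⁻ ω, alg.work σ b ω ∂(Measure.pi μ) :=
  sr_main t hn alg (Measure.pi μ) wr rd hsr hs

end Pool.Agent.Results.MP_217fdb_lc.ANLogN
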